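import Mathlib

/-!
# Ratios of critical values over totally imaginary fields: the definitions
-/

set_option autoImplicit false

namespace Pool.Agent.K9h41.RC

open NumberField Polynomial Filter Topology IsDedekindDomain

/-- The data of a motive `M₀` over the number field `F` with coefficients in `E`, pure of weight `w`
and without middle Hodge type, which enter the conjecture on the ratios of critical values. -/
structure MotiveOver (F E : Type) [Field F] [NumberField F] [Field E] where
  /-- the weight -/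
  w : ℤ
  /-- the rank -/
  n : ℕ
  /-- a finite set of primes of `F`, with all primes of bad reduction -/
  bad : Set (Ideal (𝓞 F))
  bad_finite : bad.Finite
  /-- the characteristic polynomial of the geometric Frobenius at the prime `p` of `F` -/
  frob : Ideal (𝓞 F) → E[X]
  monic : ∀ p : Ideal (𝓞 F), p.IsMaximal → p ∉ bad → (frob p).Monic ∧ (frob p).natDegree = n
  pure : ∀ p : Ideal (𝓞 F), p.IsMaximal → p ∉ bad → ∀ (ι : E →+* ℂ) (α : ℂ),
    ((frob p).map ι).IsRoot α → ‖α‖ = (Ideal.absNorm p : ℝ) ^ ((w : ℝ) / 2)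
  /-- the Hodge types `(p, w - p)` of `M₀` at the embeddings `τ` of `F` and `ι` of `E`: the `n`
  numbers `p`, with multiplicities -/
  hodge : (F →+* ℂ) → (E →+* ℂ) → Multiset ℤ
  card_hodge : ∀ τ ι, (hodge τ ι).card = n
  /-- the Hodge filtration of the de Rham realization is defined over `F ⊗ E` -/
  hodge_aut : ∀ (σ : RingAut ℂ) (τ : F →+* ℂ) (ι : E →+* ℂ),
    hodge ((σ : ℂ →+* ℂ).comp τ) ((σ : ℂ →+* ℂ).comp ι) = hodge τ ι
  /-- complex conjugation, from the realization at `τ` to the one at the conjugate of `τ`, is linear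
  over `E` and interchanges `(p, q)` and `(q, p)` -/
  hodge_conj : ∀ (τ : F →+* ℂ) (ι : E →+* ℂ),
    hodge ((starRingEnd ℂ).comp τ) ι = (hodge τ ι).map fun p => w - p
  /-- there is no middle Hodge type -/
  middle : ∀ τ ι, ∀ p ∈ hodge τ ι, 2 * p ≠ w

/-- The number `α` is purely imaginary: `α ≠ 0`, and all conjugates of `α` are in `i ℝ`. -/
def Imag {k : Type} [Field k] (α : k) : Prop := α ≠ 0 ∧ ∀ φ : k →+* ℂ, star (φ α) = -φ α

/-- `δ` is the number `Δ_k`, for a suitable choice of the number `D` and of the square root. If there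
is a purely imaginary number `α` in `k` (the CM-case), then `k₁ = k₀(α)`, where `k₀` is the maximal
totally real subfield, is the maximal CM subfield of `k`; for `D = α² ∈ k₀` and a square root `d` of
the norm of `D` from `k₀` to `ℚ` it is `d ^ [k : k₁]`, where `[k : k₁] = [k : k₀] / 2`. Otherwise (the
TR-case) it is `1`. -/
def IsDelta (k : Type) [Field k] [NumberField k] (δ : ℂ) : Prop :=
  (∃ (α : k) (D : maximalRealSubfield k) (d : ℂ), Imag α ∧ (D : k) = α ^ 2 ∧
    d ^ 2 = (Algebra.norm ℚ D : ℂ) ∧ δ = d ^ (Module.finrank (maximalRealSubfield k) k / 2)) ∨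
  ((¬ ∃ α : k, Imag α) ∧ δ = 1)

section defs

variable {F E : Type} [Field F] [NumberField F] [Field E] (D : MotiveOver F E) (ι : E →+* ℂ)
  (k : Type) [Field k] [NumberField k] [Algebra F k]

/-- The Euler factor at the prime `v` of `k` and the embedding `ι` of `E` of the L-function of the
base change of `M₀` to the extension `k` of `F`. If `v` is above the prime `p` of `F` with the residue
degree `f`, it is the product of the `(1 - α^f N(v)^(-s))⁻¹` over the eigenvalues `α` of the Frobenius
at `p`. The Euler factors above the primes in `bad` are left out. -/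
noncomputable def eulerFactor (v : HeightOneSpectrum (𝓞 k)) (s : ℂ) : ℂ :=
  open Classical in
  if v.asIdeal.under (𝓞 F) ∈ D.bad then 1
  else ((((D.frob (v.asIdeal.under (𝓞 F))).map ι).roots.map fun α =>
    1 - α ^ v.asIdeal.inertiaDeg (𝓞 F) * (Ideal.absNorm v.asIdeal : ℂ) ^ (-s)).prod)⁻¹

/-- The archimedean factor `∏_{p < q} Γ_ℂ(s - p) ^ h^{p, q}` at `ι` of the base change of `M₀` to `k`,
regarded as a motive over `ℚ`: the Hodge types are those at all embeddings of `k`. -/
noncomputable def gammaFactor (s : ℂ) : ℂ :=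
  ∏ φ : k →+* ℂ, (((D.hodge (φ.comp (algebraMap F k)) ι).filter fun p => 2 * p < D.w).map
    fun p => Complex.Gammaℂ (s - p)).prod

/-- The completed L-function of the base change of `M₀` to `k` at `ι` has a meromorphic continuation
to `ℂ`, and the value `z` at `m`. -/
def HasValue (m : ℤ) (z : ℂ) : Prop :=
  ∃ f : ℂ → ℂ, (∀ s : ℂ, MeromorphicAt f s) ∧
    (∀ s : ℂ, 1 + (D.w : ℝ) / 2 < s.re → ∃ l : ℂ,
      HasProd (fun v => eulerFactor D ι k v s) l ∧ f s = gammaFactor D ι k s * l) ∧
    Tendsto f (𝓝[≠] (m : ℂ)) (𝓝 z)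

/-- **The conjecture on the ratio of the critical values at `m` and `m + 1`** for the base change of
`M₀` to `k`, with the number `e` of the coefficient field: for all embeddings `ι` of `E`, the
values `z` at `m` and `z' ≠ 0` at `m + 1` of the completed L-function satisfy
`z / z' = ι(e) (i ^ ([k : ℚ] / 2) Δ_k) ^ n`. -/
def RatioWith (m : ℤ) (e : E) : Prop :=
  ∃ δ : ℂ, IsDelta k δ ∧ ∀ ι : E →+* ℂ, ∃ z z' : ℂ, HasValue D ι k m z ∧
    HasValue D ι k (m + 1) z' ∧ z' ≠ 0 ∧
      z = ι e * (Complex.I ^ (Module.finrank ℚ k / 2) * δ) ^ D.n * z'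

end defs

/-- Hyperelementary groups: for some prime number `p` there is a normal cyclic subgroup of an order
prime to `p` whose quotient is a `p`-group. -/
def Hyperelementary (U : Type) [Group U] : Prop :=
  ∃ p : ℕ, p.Prime ∧ ∃ c : U, (orderOf c).Coprime p ∧
    (∀ u : U, u * c * u⁻¹ ∈ Subgroup.zpowers c) ∧ ∀ u : U, ∃ k : ℕ, u ^ (p ^ k) ∈ Subgroup.zpowers c

end Pool.Agent.K9h41.RC
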