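import Mathlib
import Pool.Agent.K9h41.DC.Eu
import Pool.Agent.K9h41.DC.Mt
import Pool.Agent.K9h41.RC.Df

/-!
# L-series over extensions of `F` with weights on the prime powers of `F`
-/

set_option autoImplicit false
set_option linter.unusedSectionVars false

namespace Pool.Agent.K9h41.RC

open NumberField Ideal IsDedekindDomain IntermediateField Pool.Agent.R389 Pool.Agent.K4H74.ST
  Pool.Agent.K4H74.SC Pool.Agent.K9h41.DC

section mean

variable {K L : Type} [Field K] [NumberField K] [Field L] [NumberField L] [Algebra K L]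

lemma mean_smul (c : ℂ) (χ : (L ≃ₐ[K] L) → ℂ) {p : Ideal (𝓞 K)} (hp : p ≠ ⊥) [p.IsPrime] (n : ℕ) :
    frobMean K L (fun g => c * χ g) p n = c * frobMean K L χ p n := by
  classical
  have hft : Fintype (L ≃ₐ[K] L) := Fintype.ofFinite _
  rw [frobMean, frobMean, mul_div_assoc']
  congr 1
  rw [sum_frobSet hp n (fun x => c * χ x.2), sum_frobSet hp n (fun x => χ x.2), Finset.mul_sum]
  refine Finset.sum_congr rfl fun P _ => ?_
  rw [Finset.mul_sum]
  refine Finset.sum_congr rfl fun g _ => ?_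
  split_ifs
  · rfl
  · rw [mul_zero]

lemma mean_sum {ι : Type} (s : Finset ι) (c : ι → ℂ) (χ : ι → (L ≃ₐ[K] L) → ℂ) {p : Ideal (𝓞 K)}
    (hp : p ≠ ⊥) [p.IsPrime] (n : ℕ) :
    frobMean K L (fun g => ∑ i ∈ s, c i * χ i g) p n = ∑ i ∈ s, c i * frobMean K L (χ i) p n := by
  classical
  induction s using Finset.induction_on with
  | empty =>
    have h1 := mean_smul (K := K) (L := L) 0 (fun _ => 0) hp n
    simp only [zero_mul] at h1
    simp only [Finset.sum_empty]
    exact h1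
  | insert a s ha ih =>
    have h2 : (fun g => ∑ i ∈ insert a s, c i * χ i g)
        = (fun g => c a * χ a g) + fun g => ∑ i ∈ s, c i * χ i g := by
      funext g
      rw [Pi.add_apply, Finset.sum_insert ha]
    rw [h2, frobMean_add _ _ hp, ih, Finset.sum_insert ha, mean_smul _ _ hp]

lemma mean_one [IsGalois K L] {p : Ideal (𝓞 K)} (hp : p ≠ ⊥) [p.IsPrime] (n : ℕ) :
    frobMean K L (fun _ => 1) p n = 1 := by
  classical
  have : Fintype (L ≃ₐ[K] L) := Fintype.ofFinite _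
  have h1 : ((frobSet K L p n).ncard : ℂ)
      = ∑ᶠ x ∈ frobSet K L p n, (fun _ : L ≃ₐ[K] L => (1 : ℂ)) x.2 := by
    rw [frobSet_eq hp n, finsum_mem_coe_finset, Finset.sum_const, nsmul_eq_mul, mul_one,
      Set.ncard_coe_finset]
  rw [frobMean, ← h1, div_self]
  rw [ncard_frob hp n]
  exact_mod_cast mul_ne_zero pr_ne ram_ne

end mean

section terms

variable (F : Type) [Field F] [NumberField F] (W : Ideal (𝓞 F) → ℕ → ℂ)

/-- the term of the L-series of the base change to `k` -/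
noncomputable def rTerm (k : Type) [Field k] [NumberField k] [Algebra F k] (s : ℂ)
    (x : HeightOneSpectrum (𝓞 k) × ℕ+) : ℂ :=
  W (x.1.asIdeal.under (𝓞 F)) (x.1.asIdeal.inertiaDeg (𝓞 F) * (x.2 : ℕ)) *
    (1 / ((x.2 : ℕ) * (absNorm x.1.asIdeal : ℂ) ^ (((x.2 : ℕ) : ℂ) * s)))

/-- the term of the L-series with the class function `χ` -/
noncomputable def tTerm (L : Type) [Field L] [NumberField L] [Algebra F L] (χ : (L ≃ₐ[F] L) → ℂ)
    (s : ℂ) (x : HeightOneSpectrum (𝓞 F) × ℕ+) : ℂ :=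
  W x.1.asIdeal (x.2 : ℕ) * logTerm F L χ s x

end terms

section ind

variable {K F L : Type} [Field K] [NumberField K] [Field F] [NumberField F] [Field L]
  [NumberField L] [Algebra K F] [Algebra F L] [Algebra K L] [IsScalarTower K F L] [IsGalois K L]
  [IsGalois F L]

/-- **induction** -/
theorem hasSum_rind {W : Ideal (𝓞 K) → ℕ → ℂ} {s l : ℂ} (hl1 : HasSum (rTerm K W F s) l) :
    HasSum (tTerm K W L (indChar K F L (fun _ => 1)) s) l := by
  classical
  let e := Equiv.sigmaFiberEquiv (idx (F := F) K)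
  have h1 : HasSum (rTerm K W F s ∘ e) l := (Equiv.hasSum_iff e).mpr hl1
  refine h1.sigma fun b => ?_
  -- the fibre
  obtain ⟨p, n⟩ := b
  have hpp := p.isPrime
  let D : Finset (Ideal (𝓞 F)) := (pr_finite F p.ne_bot).toFinset.filter
    fun q => q.inertiaDeg (𝓞 K) ∣ (n : ℕ)
  have hD : ∀ q ∈ D, q.IsPrime ∧ q.LiesOver p.asIdeal ∧ q ≠ ⊥ ∧ q.inertiaDeg (𝓞 K) ∣ (n : ℕ) := by
    intro q hq
    rw [Finset.mem_filter, Set.Finite.mem_toFinset] at hq
    obtain ⟨⟨e1, e2⟩, e3⟩ := hq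
    exact ⟨e1, e2, Ideal.ne_bot_of_liesOver_of_ne_bot p.ne_bot q, e3⟩
  let T : D ≃ {x // idx (F := F) K x = (p, n)} :=
    { toFun := fun q => ⟨(⟨q.1, (hD q.1 q.2).1, (hD q.1 q.2).2.2.1⟩,
        ⟨n / q.1.inertiaDeg (𝓞 K), by
          have := (hD q.1 q.2).1
          exact Nat.div_pos (Nat.le_of_dvd n.2 (hD q.1 q.2).2.2.2) (deg_pos q.1)⟩), by
          have h2 := (hD q.1 q.2).2.1
          refine Prod.ext ?_ ?_
          · apply HeightOneSpectrum.ext
            exact (Ideal.over_def q.1 p.asIdeal).symm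
          · apply PNat.eq
            exact Nat.mul_div_cancel' (hD q.1 q.2).2.2.2⟩
      invFun := fun x => ⟨x.1.1.asIdeal, by
          have hx1 := congrArg (fun y => y.1.asIdeal) x.2
          have hx2 := congrArg (fun y => (y.2 : ℕ)) x.2
          rw [Finset.mem_filter, Set.Finite.mem_toFinset]
          refine ⟨⟨x.1.1.isPrime, ⟨hx1.symm⟩⟩, ?_⟩
          exact ⟨x.1.2, hx2.symm⟩⟩
      left_inv := fun q => rfl
      right_inv := fun x => by
          apply Subtype.ext
          refine Prod.ext rfl ?_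
          apply PNat.eq
          have hx2 : x.1.1.asIdeal.inertiaDeg (𝓞 K) * (x.1.2 : ℕ) = n :=
            congrArg (fun y => (y.2 : ℕ)) x.2
          have := x.1.1.isPrime
          change (n : ℕ) / x.1.1.asIdeal.inertiaDeg (𝓞 K) = x.1.2
          rw [← hx2]
          exact Nat.mul_div_cancel_left _ (deg_pos _) }
  rw [← Equiv.hasSum_iff T]
  have h2 : tTerm K W L (indChar K F L (fun _ => 1)) s (p, n)
      = ∑ q : D, ((fun c => (rTerm K W F s ∘ e) ⟨(p, n), c⟩) ∘ T) q := by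
    have h3 := frobMean_ind (K := K) (F := F) (L := L) (χ := fun _ => 1) p.ne_bot
      (n := (n : ℕ)) n.pos
    change W p.asIdeal (n : ℕ) *
      (frobMean K L (indChar K F L (fun _ => 1)) p.asIdeal (n : ℕ) / _) = _
    rw [h3, ← Finset.sum_filter]
    change _ * ((∑ q ∈ D, _) / _) = _
    rw [Finset.sum_div, ← Finset.sum_coe_sort, Finset.mul_sum]
    refine Finset.sum_congr rfl fun q _ => ?_
    obtain ⟨q, hq⟩ := q
    obtain ⟨e1, e2, e3, e4⟩ := hD q hq
    change W p.asIdeal (n : ℕ) *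
      (((q.inertiaDeg (𝓞 K) : ℂ) *
        frobMean F L (fun _ => 1) q ((n : ℕ) / q.inertiaDeg (𝓞 K)))
      / ((n : ℕ) * (absNorm p.asIdeal : ℂ) ^ (((n : ℕ) : ℂ) * s)))
      = W (q.under (𝓞 K)) (q.inertiaDeg (𝓞 K) * ((n : ℕ) / q.inertiaDeg (𝓞 K))) *
        (1 / ((((n : ℕ) / q.inertiaDeg (𝓞 K) : ℕ) : ℂ) *
        (absNorm q : ℂ) ^ ((((n : ℕ) / q.inertiaDeg (𝓞 K) : ℕ) : ℂ) * s)))
    rw [mean_one e3, mul_one, ← Ideal.over_def q p.asIdeal, Nat.mul_div_cancel' e4]
    obtain ⟨m, hm⟩ := e4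
    have hd0 : q.inertiaDeg (𝓞 K) ≠ 0 := (deg_pos q).ne'
    have hm' : (n : ℕ) / q.inertiaDeg (𝓞 K) = m := by
      rw [hm]; exact Nat.mul_div_cancel_left _ (deg_pos q)
    have hm0 : (m : ℂ) ≠ 0 := by
      intro h0
      have : m = 0 := by exact_mod_cast h0
      rw [this, mul_zero] at hm
      exact n.2.ne' hm
    rw [hm']
    congr 1
    have h3 : (absNorm q : ℂ) ^ ((m : ℂ) * s)
        = (absNorm p.asIdeal : ℂ) ^ (((n : ℕ) : ℂ) * s) := by
      rw [hm, ← Ideal.absNorm_pow_inertiaDeg p.asIdeal q]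
      push_cast
      rw [mul_assoc, Complex.natCast_cpow_natCast_mul]
    rw [h3, hm]
    push_cast
    have hd1 : (q.inertiaDeg (𝓞 K) : ℂ) ≠ 0 := by exact_mod_cast hd0
    rw [mul_assoc, div_mul_eq_div_div, div_self hd1]
  rw [h2]
  exact hasSum_fintype _

end ind

section sub

variable {F L : Type} [Field F] [NumberField F] [Field L] [NumberField L] [Algebra F L]
  [IsGalois F L]

/-- the extension `k` of `F` corresponds to the subgroup `V` -/
structure Fits (V : Subgroup (L ≃ₐ[F] L)) (k : Type) [Field k] [NumberField k] [Algebra F k] :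
    Prop where
  /-- the L-series -/
  sum : ∀ (W : Ideal (𝓞 F) → ℕ → ℂ) (s l : ℂ), HasSum (rTerm F W k s) l →
    HasSum (tTerm F W L (ind V (fun _ => 1)) s) l
  /-- the degree -/
  deg : fx V 1 = Module.finrank F k

lemma fits_fixed (V : Subgroup (L ≃ₐ[F] L)) : Fits V (fixedField V) where
  sum W s l h := by
    rw [ind_fixed]
    exact hasSum_rind (K := F) (F := fixedField V) (L := L) h
  deg := by
    have h1 := finrank_fixedField_eq_card V
    have h2 := Module.finrank_mul_finrank F (fixedField V) L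
    have h3 := IsGalois.card_aut_eq_finrank F L
    have h4 := Subgroup.card_eq_card_quotient_mul_card_subgroup V
    have h5 : 0 < Nat.card V := Nat.card_pos
    rw [h3, ← h2, h1] at h4
    have h6 := (Nat.eq_of_mul_eq_mul_right h5 h4).symm
    rw [← h6, fx]
    simp only [one_smul]
    exact Nat.card_congr (Equiv.subtypeUnivEquiv fun _ => trivial)

lemma ind_top' : ind (⊤ : Subgroup (L ≃ₐ[F] L)) (fun _ => (1 : ℂ)) = fun _ => 1 := by
  classical
  have : Fintype (L ≃ₐ[F] L) := Fintype.ofFinite _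
  funext g
  rw [ind_eq]
  have h1 : ∀ x : L ≃ₐ[F] L, ext (⊤ : Subgroup (L ≃ₐ[F] L)) (fun _ => (1 : ℂ)) (x⁻¹ * g * x) = 1 :=
    fun x => ext_mem _ _ (Subgroup.mem_top _)
  rw [Finset.sum_congr rfl (fun x _ => h1 x)]
  have h2 : Nat.card (⊤ : Subgroup (L ≃ₐ[F] L)) = Fintype.card (L ≃ₐ[F] L) := by
    rw [← Nat.card_eq_fintype_card]
    exact Nat.card_congr Subgroup.topEquiv.toEquiv
  rw [h2, Finset.sum_const, Finset.card_univ, nsmul_eq_mul, mul_one]
  exact inv_mul_cancel₀ (by exact_mod_cast Fintype.card_pos.ne')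

lemma self_deg (F : Type) [Field F] [NumberField F] (I : Algebra (𝓞 F) (𝓞 F))
    (hI : ∀ y : 𝓞 F, @algebraMap _ _ _ _ I y = y) (p : HeightOneSpectrum (𝓞 F)) :
    @Ideal.under (𝓞 F) _ (𝓞 F) _ I p.asIdeal = p.asIdeal ∧
      @Ideal.inertiaDeg (𝓞 F) _ p.asIdeal (𝓞 F) _ I = 1 := by
  have h0 : I = Algebra.id (𝓞 F) := Algebra.algebra_ext _ _ hI
  subst h0
  have h1 : p.asIdeal.under (𝓞 F) = p.asIdeal := by
    ext y
    rw [Ideal.mem_comap, hI]
  have := p.isPrime
  have : p.asIdeal.LiesOver p.asIdeal := ⟨h1.symm⟩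
  have h2 := Ideal.absNorm_pow_inertiaDeg p.asIdeal p.asIdeal
  refine ⟨h1, ?_⟩
  exact Nat.pow_right_injective (two_le_absNorm p) (h2.trans (pow_one _).symm)

lemma fits_base : Fits (⊤ : Subgroup (L ≃ₐ[F] L)) F where
  sum W s l h := by
    rw [ind_top']
    have h1 : rTerm F W F s = tTerm F W L (fun _ => 1) s := by
      funext x
      have := x.1.isPrime
      obtain ⟨h2, h3⟩ := self_deg F _ (fun _ => rfl) x.1
      rw [rTerm, tTerm, logTerm, mean_one x.1.ne_bot]
      erw [h2, h3]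
      rw [one_mul]
    rwa [← h1]
  deg := by
    have h := congrFun (ind_top' (F := F) (L := L)) 1
    rw [ind_one] at h
    rw [Module.finrank_self]
    exact_mod_cast h

/-- the L-series with the weights `W` -/
noncomputable def ls (W : Ideal (𝓞 F) → ℕ → ℂ) (k : Type) [Field k] [NumberField k] [Algebra F k]
    (s : ℂ) : ℂ := ∑' x, rTerm F W k s x

/-- **the relation between the L-series** -/
theorem ls_rel {V : Subgroup (L ≃ₐ[F] L)} {k : Type} [Field k] [NumberField k] [Algebra F k]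
    (hk : Fits V k) [Fintype (Subgroup (L ≃ₐ[F] L))] {c : Subgroup (L ≃ₐ[F] L) → ℤ}
    (hc : ∀ g : L ≃ₐ[F] L, ∑ U, (c U : ℂ) * ind U (fun _ => (1 : ℂ)) g
      = ind V (fun _ => (1 : ℂ)) g) {W : Ideal (𝓞 F) → ℕ → ℂ} {s : ℂ}
    (hs : ∀ U : Subgroup (L ≃ₐ[F] L), Summable (rTerm F W (fixedField U) s))
    (hsk : Summable (rTerm F W k s)) :
    ∑ U, c U * ls W (fixedField U) s = ls W k s := by
  have h1 : HasSum (fun x => ∑ U, (c U : ℂ) * tTerm F W L (ind U (fun _ => 1)) s x)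
      (∑ U, c U * ls W (fixedField U) s) :=
    hasSum_sum fun U _ => ((fits_fixed U).sum W s _ (hs U).hasSum).mul_left _
  have h2 : (fun x => ∑ U, (c U : ℂ) * tTerm F W L (ind U (fun _ => 1)) s x)
      = tTerm F W L (ind V (fun _ => 1)) s := by
    funext x
    have := x.1.isPrime
    have h3 : (ind V (fun _ => (1 : ℂ)))
        = fun g => ∑ U, (c U : ℂ) * ind U (fun _ => (1 : ℂ)) g := funext fun g => (hc g).symm
    rw [tTerm, logTerm, h3, mean_sum _ _ _ x.1.ne_bot, Finset.sum_div, Finset.mul_sum]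
    refine Finset.sum_congr rfl fun U _ => ?_
    rw [tTerm, logTerm]
    ring
  rw [h2] at h1
  exact h1.unique (hk.sum W s _ hsk.hasSum)

end sub

end Pool.Agent.K9h41.RC
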