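import Mathlib
import Pool.Agent.K9h41.RC.Wt

/-!
# The Euler product and its logarithm, over extensions of `F`
-/

set_option autoImplicit false
set_option linter.unusedSectionVars false

namespace Pool.Agent.K9h41.RC

open NumberField Ideal IsDedekindDomain Pool.Agent.K4H74.SC Pool.Agent.K9h41.DC Polynomial

variable {F E : Type} [Field F] [NumberField F] [Field E] (D : MotiveOver F E) (ι : E →+* ℂ)

open Classical in
/-- the traces of the powers of the Frobenius elements -/
noncomputable def wt (p : Ideal (𝓞 F)) (j : ℕ) : ℂ :=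
  if p ∈ D.bad then 0 else (((D.frob p).map ι).roots.map fun α => α ^ j).sum

lemma roots_norm {p : Ideal (𝓞 F)} (hp : p.IsMaximal) (hb : p ∉ D.bad) {α : ℂ}
    (hα : α ∈ ((D.frob p).map ι).roots) : ‖α‖ = (absNorm p : ℝ) ^ ((D.w : ℝ) / 2) :=
  D.pure p hp hb ι α (Polynomial.isRoot_of_mem_roots hα)

lemma pow_norm {p : Ideal (𝓞 F)} (hp : p.IsMaximal) (hb : p ∉ D.bad) {α : ℂ}
    (hα : α ∈ ((D.frob p).map ι).roots) (j : ℕ) :
    ‖α ^ j‖ = ((absNorm p ^ j : ℕ) : ℝ) ^ ((D.w : ℝ) / 2) := by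
  rw [norm_pow, roots_norm D ι hp hb hα]
  push_cast
  rw [← Real.rpow_natCast, ← Real.rpow_mul (Nat.cast_nonneg _), mul_comm,
    Real.rpow_mul (Nat.cast_nonneg _), Real.rpow_natCast]

section loc

variable {k : Type} [Field k] [NumberField k] [Algebra F k]

lemma under_max (v : HeightOneSpectrum (𝓞 k)) : (v.asIdeal.under (𝓞 F)).IsMaximal :=
  (belowP F v).isPrime.isMaximal (belowP F v).ne_bot

lemma norm_under (v : HeightOneSpectrum (𝓞 k)) :
    absNorm (v.asIdeal.under (𝓞 F)) ^ v.asIdeal.inertiaDeg (𝓞 F) = absNorm v.asIdeal := by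
  have := v.isPrime
  exact Ideal.absNorm_pow_inertiaDeg (v.asIdeal.under (𝓞 F)) v.asIdeal

lemma rTerm_eq (W : Ideal (𝓞 F) → ℕ → ℂ) (s : ℂ) (x : HeightOneSpectrum (𝓞 k) × ℕ+) :
    rTerm F W k s x = W (x.1.asIdeal.under (𝓞 F)) (x.1.asIdeal.inertiaDeg (𝓞 F) * (x.2 : ℕ)) *
      logTerm k k (fun _ => 1) s x := by
  rw [rTerm, logTerm, frobMean_one]

theorem rTerm_summable {s : ℂ} (hs : 1 + (D.w : ℝ) / 2 < s.re) :
    Summable (rTerm F (wt D ι) k s) := by
  set b : ℝ := (D.w : ℝ) / 2 with hb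
  have h1 : Summable (logTerm k k (fun _ => 1) (s - b)) :=
    logTerm_summable _ (by simp; linarith)
  refine Summable.of_norm_bounded (h1.norm.mul_left (D.n : ℝ)) fun x => ?_
  rw [rTerm_eq, norm_mul, logTerm_shift]
  have h2 : ‖wt D ι (x.1.asIdeal.under (𝓞 F)) (x.1.asIdeal.inertiaDeg (𝓞 F) * (x.2 : ℕ))‖
      ≤ D.n * ((absNorm x.1.asIdeal ^ (x.2 : ℕ) : ℕ) : ℝ) ^ b := by
    rw [wt]
    split_ifs with hbad
    · rw [norm_zero]
      exact mul_nonneg (Nat.cast_nonneg _) (Real.rpow_nonneg (Nat.cast_nonneg _) _)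
    · refine (ms_norm _ _ (c := ((absNorm x.1.asIdeal ^ (x.2 : ℕ) : ℕ) : ℝ) ^ b)
        fun α hα => ?_).trans ?_
      · rw [pow_norm D ι (under_max x.1) hbad hα, pow_mul, norm_under]
      · refine mul_le_mul_of_nonneg_right ?_ (Real.rpow_nonneg (Nat.cast_nonneg _) _)
        have h2 := Polynomial.card_roots' ((D.frob (x.1.asIdeal.under (𝓞 F))).map ι)
        rw [Polynomial.natDegree_map, (D.monic _ (under_max x.1) hbad).2] at h2
        exact_mod_cast h2
  calc _ ≤ D.n * ((absNorm x.1.asIdeal ^ (x.2 : ℕ) : ℕ) : ℝ) ^ b *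
        ‖logTerm k k (fun _ => 1) s x‖ := mul_le_mul_of_nonneg_right h2 (norm_nonneg _)
    _ = _ := by ring

/-- the local factor -/
theorem hasSum_local (v : HeightOneSpectrum (𝓞 k)) {s : ℂ} (hs : (D.w : ℝ) / 2 < s.re) :
    ∃ l : ℂ, HasSum (fun n : ℕ+ => rTerm F (wt D ι) k s (v, n)) l ∧
      Complex.exp l = eulerFactor D ι k v s := by
  set N := absNorm v.asIdeal with hN
  have hN2 : 2 ≤ N := two_le_absNorm v
  have hN0 : (0 : ℝ) < N := by exact_mod_cast (by omega : 0 < N)
  have hNC : (N : ℂ) ≠ 0 := by exact_mod_cast (by omega : N ≠ 0)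
  by_cases hb : v.asIdeal.under (𝓞 F) ∈ D.bad
  · refine ⟨0, ?_, ?_⟩
    · convert hasSum_zero using 2 with n
      rw [rTerm, wt, if_pos hb, zero_mul]
    · rw [Complex.exp_zero, eulerFactor, if_pos hb]
  · let R : Multiset ℂ := ((D.frob (v.asIdeal.under (𝓞 F))).map ι).roots
    let z : ℂ → ℂ := fun α => α ^ v.asIdeal.inertiaDeg (𝓞 F) * (N : ℂ) ^ (-s)
    have hz : ∀ α ∈ R, ‖z α‖ < 1 := by
      intro α hα
      have h1 : ‖z α‖ = (N : ℝ) ^ ((D.w : ℝ) / 2 - s.re) := by
        rw [norm_mul, pow_norm D ι (under_max v) hb hα, norm_under, ← hN,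
          Complex.norm_natCast_cpow_of_pos (by omega), Complex.neg_re, Real.rpow_sub hN0,
          Real.rpow_neg hN0.le]
        rfl
      rw [h1]
      exact Real.rpow_lt_one_of_one_lt_of_neg (by exact_mod_cast (by omega : 1 < N))
        (by linarith)
    refine ⟨(R.map fun α => -Complex.log (1 - z α)).sum, ?_, ?_⟩
    · have h1 := ms_hasSum R z hz
      convert h1 using 2 with n
      rw [rTerm, wt, if_neg hb]
      have h2 : ∀ α, z α ^ (n : ℕ) = α ^ (v.asIdeal.inertiaDeg (𝓞 F) * (n : ℕ)) *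
          ((N : ℂ) ^ (((n : ℕ) : ℂ) * s))⁻¹ := by
        intro α
        rw [mul_pow, ← pow_mul, Complex.cpow_neg, inv_pow, Complex.cpow_nat_mul]
      simp only [h2]
      rw [Multiset.sum_map_mul_right]
      change _ = (R.map _).sum * _ / _
      rw [mul_div_assoc]
      congr 1
      rw [one_div, mul_inv, div_eq_mul_inv, mul_comm]
    · rw [Complex.exp_multiset_sum, Multiset.map_map, eulerFactor, if_neg hb,
        ← Multiset.prod_map_inv]
      congr 1
      refine Multiset.map_congr rfl fun α hα => ?_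
      have h3 : 1 - z α ≠ 0 := by
        intro h0
        have h4 := hz α hα
        have h5 : z α = 1 := (sub_eq_zero.mp h0).symm
        rw [h5, norm_one] at h4
        exact lt_irrefl _ h4
      change Complex.exp (-Complex.log (1 - z α)) = _
      rw [Complex.exp_neg, Complex.exp_log h3]

/-- **the Euler product** -/
theorem hasProd_euler {s : ℂ} (hs : 1 + (D.w : ℝ) / 2 < s.re) :
    HasProd (fun v => eulerFactor D ι k v s) (Complex.exp (ls (wt D ι) k s)) := by
  have h1 : Summable (rTerm F (wt D ι) k s) := rTerm_summable D ι hs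
  choose l hl hl' using fun v : HeightOneSpectrum (𝓞 k) =>
    hasSum_local D ι v (s := s) (by linarith)
  have h2 := (HasSum.prod_fiberwise h1.hasSum hl).cexp
  have h3 : (fun v => eulerFactor D ι k v s) = Complex.exp ∘ l := by
    funext v
    exact (hl' v).symm
  rw [h3, ls]
  exact h2

end loc

end Pool.Agent.K9h41.RC
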