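import Mathlib
import Pool.Agent.K9h41.RC.Df

/-!
# The numbers `Δ` of an extension of totally imaginary fields (leaf DEL, by helper90 for helper41)
-/

set_option autoImplicit false

namespace Pool.Agent.K9h41.RC

open NumberField

section

variable {F k : Type} [Field F] [NumberField F] [Field k] [NumberField k] [Algebra F k]

lemma Imag.sq_mem {k : Type} [Field k] [NumberField k] {α : k} (h : Imag α) :
    α ^ 2 ∈ maximalRealSubfield k := by
  intro φ
  rw [map_pow, star_pow, h.2 φ, neg_sq]

/-- existence -/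
theorem exists_delta (k : Type) [Field k] [NumberField k] : ∃ δ : ℂ, IsDelta k δ := by
  by_cases h : ∃ α : k, Imag α
  · obtain ⟨α, hα⟩ := h
    obtain ⟨d, hd⟩ := IsAlgClosed.exists_pow_nat_eq
      ((Algebra.norm ℚ (⟨α ^ 2, hα.sq_mem⟩ : maximalRealSubfield k) : ℚ) : ℂ) (n := 2) (by norm_num)
    exact ⟨_, Or.inl ⟨α, ⟨α ^ 2, hα.sq_mem⟩, d, hα, rfl, hd, rfl⟩⟩
  · exact ⟨1, Or.inr ⟨h, rfl⟩⟩

/-- the square is rational -/
theorem delta_sq {δ : ℂ} (h : IsDelta k δ) : ∃ q : ℚ, q ≠ 0 ∧ δ ^ 2 = q := by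
  rcases h with ⟨α, D, d, hα, hD, hd, rfl⟩ | ⟨-, rfl⟩
  · refine ⟨(Algebra.norm ℚ D) ^ (Module.finrank (maximalRealSubfield k) k / 2), ?_, ?_⟩
    · apply pow_ne_zero
      rw [Ne, Algebra.norm_eq_zero_iff]
      rintro rfl
      apply hα.1
      have : (0 : k) = α ^ 2 := hD
      exact pow_eq_zero_iff (two_ne_zero) |>.1 this.symm
    · rw [← pow_mul, mul_comm, pow_mul, hd, Rat.cast_pow]
  · exact ⟨1, one_ne_zero, by simp⟩

/-- the degree over the maximal real subfield is even -/
lemma even_finrank {k : Type} [Field k] [NumberField k] {α : k} (h : Imag α) :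
    2 ∣ Module.finrank (maximalRealSubfield k) k := by
  have hint : IsIntegral (maximalRealSubfield k) α := by
    refine ⟨Polynomial.X ^ 2 - Polynomial.C ⟨α ^ 2, h.sq_mem⟩,
      Polynomial.monic_X_pow_sub_C _ two_ne_zero, ?_⟩
    simp [Polynomial.eval₂_sub, Polynomial.eval₂_pow]
    exact sub_self _
  have hle : (minpoly (maximalRealSubfield k) α).natDegree ≤ 2 := by
    have h1 : Polynomial.aeval α (Polynomial.X ^ 2 -
        Polynomial.C (⟨α ^ 2, h.sq_mem⟩ : maximalRealSubfield k)) = 0 := by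
      rw [map_sub, map_pow, Polynomial.aeval_X, Polynomial.aeval_C]
      exact sub_self _
    refine (Polynomial.natDegree_le_natDegree
      (minpoly.min _ _ (Polynomial.monic_X_pow_sub_C _ two_ne_zero) h1)).trans ?_
    rw [Polynomial.natDegree_X_pow_sub_C]
  have hge : 2 ≤ (minpoly (maximalRealSubfield k) α).natDegree := by
    rw [minpoly.two_le_natDegree_iff hint]
    rintro ⟨x, hx⟩
    have h1 : ∀ φ : k →+* ℂ, star (φ α) = φ α := by
      intro φ
      rw [← hx]
      exact x.2 φ
    obtain ⟨φ⟩ : Nonempty (k →+* ℂ) := inferInstance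
    have h2 := h.2 φ
    rw [h1 φ] at h2
    have h3 : φ α = 0 := by
      have : (2 : ℂ) * φ α = 0 := by linear_combination h2
      simpa using this
    exact h.1 ((map_eq_zero φ).1 h3)
  have heq : (minpoly (maximalRealSubfield k) α).natDegree = 2 := le_antisymm hle hge
  rw [← heq]
  exact minpoly.degree_dvd hint

/-- multiplicativity in the CM-case. Proof: `k₀ ⊇ F₀`; if `α ∈ F` and `β ∈ k` are purely imaginary then
`γ = β / α ∈ k₀`, so `D' = γ² D` in `k₀` and `N_{k₀/ℚ}(D') = N_{k₀/ℚ}(γ)² N_{F₀/ℚ}(D) ^ [k₀ : F₀]`; hence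
`d' = ± N(γ) d ^ [k₀ : F₀]`, and `[k₀ : F₀] ([k : k₀] / 2) = ([F : F₀] / 2) [k : F]`, since `[F : F₀]` and
`[k : k₀]` are even (`F₀(α)` is quadratic over `F₀`, etc.). -/
theorem delta_rel (hF : ∃ α : F, Imag α) {δ δ' : ℂ} (h : IsDelta F δ) (h' : IsDelta k δ') :
    ∃ q : ℚ, q ≠ 0 ∧ δ' = q * δ ^ Module.finrank F k := by
  have himag : ∀ {α : F}, Imag α → Imag (algebraMap F k α) := by
    intro α hα
    refine ⟨(map_ne_zero _).2 hα.1, fun φ => ?_⟩
    exact hα.2 (φ.comp (algebraMap F k))
  rcases h with ⟨α, D, d, hα, hD, hd, rfl⟩ | ⟨h, -⟩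
  swap
  · exact absurd hF h
  rcases h' with ⟨β, D', d', hβ, hD', hd', rfl⟩ | ⟨h', -⟩
  swap
  · obtain ⟨α, hα⟩ := hF
    exact absurd ⟨_, himag hα⟩ h'
  -- the inclusion of the maximal real subfields
  let j : maximalRealSubfield F →+* maximalRealSubfield k :=
    { toFun := fun x => ⟨algebraMap F k x, fun φ => x.2 (φ.comp (algebraMap F k))⟩
      map_one' := Subtype.ext (map_one _)
      map_mul' := fun x y => Subtype.ext (map_mul _ _ _)
      map_zero' := Subtype.ext (map_zero _)
      map_add' := fun x y => Subtype.ext (map_add _ _ _) }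
  let _ : Algebra (maximalRealSubfield F) (maximalRealSubfield k) := j.toAlgebra
  have t1 : IsScalarTower (maximalRealSubfield F) (maximalRealSubfield k) k :=
    IsScalarTower.of_algebraMap_eq fun x => rfl
  have t2 : IsScalarTower ℚ (maximalRealSubfield F) (maximalRealSubfield k) := inferInstance
  have : FiniteDimensional ℚ (maximalRealSubfield F) := inferInstance
  have : FiniteDimensional ℚ (maximalRealSubfield k) := inferInstance
  have : Module.Finite (maximalRealSubfield F) (maximalRealSubfield k) :=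
    Module.Finite.of_restrictScalars_finite ℚ _ _
  -- γ
  have hγ : β / algebraMap F k α ∈ maximalRealSubfield k := by
    intro φ
    rw [map_div₀, star_div₀, hβ.2 φ, (himag hα).2 φ, neg_div_neg_eq]
  set γ : maximalRealSubfield k := ⟨_, hγ⟩ with hγdef
  have hγ0 : γ ≠ 0 := by
    intro h0
    have : β / algebraMap F k α = 0 := congrArg Subtype.val h0
    rcases div_eq_zero_iff.1 this with h1 | h1
    · exact hβ.1 h1
    · exact (himag hα).1 h1
  have hDD : D' = γ ^ 2 * algebraMap (maximalRealSubfield F) (maximalRealSubfield k) D := by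
    apply Subtype.ext
    show (D' : k) = (β / algebraMap F k α) ^ 2 * algebraMap F k (D : F)
    rw [hD', hD, map_pow, ← mul_pow, div_mul_cancel₀ _ (himag hα).1]
  have hnorm : Algebra.norm ℚ D' = (Algebra.norm ℚ γ) ^ 2 * (Algebra.norm ℚ D) ^
      Module.finrank (maximalRealSubfield F) (maximalRealSubfield k) := by
    have h1 : Algebra.norm ℚ (algebraMap (maximalRealSubfield F) (maximalRealSubfield k) D) =
        (Algebra.norm ℚ D) ^ Module.finrank (maximalRealSubfield F) (maximalRealSubfield k) := by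
      have h2 : Algebra.norm ℚ (Algebra.norm (maximalRealSubfield F)
          (algebraMap (maximalRealSubfield F) (maximalRealSubfield k) D)) =
          Algebra.norm ℚ (algebraMap (maximalRealSubfield F) (maximalRealSubfield k) D) :=
        Algebra.norm_norm
      rw [← h2, Algebra.norm_algebraMap, map_pow]
    rw [hDD, map_mul, map_pow, h1]
  set a := Module.finrank (maximalRealSubfield F) (maximalRealSubfield k) with ha
  have hsq : d' ^ 2 = ((Algebra.norm ℚ γ : ℂ) * d ^ a) ^ 2 := by
    rw [hd', hnorm, mul_pow, ← pow_mul, mul_comm a 2, pow_mul, hd]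
    push_cast
    ring
  have hpm : ∃ s : ℚ, s ≠ 0 ∧ d' = s * d ^ a := by
    have hn : Algebra.norm ℚ γ ≠ 0 := by
      rw [Ne, Algebra.norm_eq_zero_iff]
      exact hγ0
    rcases sq_eq_sq_iff_eq_or_eq_neg.1 hsq with h1 | h1
    · exact ⟨_, hn, h1⟩
    · exact ⟨-_, neg_ne_zero.2 hn, by rw [h1]; push_cast; ring⟩
  obtain ⟨s, hs, hs'⟩ := hpm
  obtain ⟨e, he⟩ := even_finrank hα
  obtain ⟨e', he'⟩ := even_finrank hβ
  have hdeg : a * e' = e * Module.finrank F k := by
    have h1 := Module.finrank_mul_finrank (maximalRealSubfield F) (maximalRealSubfield k) k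
    have h2 := Module.finrank_mul_finrank (maximalRealSubfield F) F k
    rw [he'] at h1
    rw [he] at h2
    have h3 : 2 * (a * e') = 2 * (e * Module.finrank F k) := by
      calc 2 * (a * e') = a * (2 * e') := by ring
        _ = 2 * e * Module.finrank F k := by rw [ha, h1, h2]
        _ = _ := by ring
    omega
  refine ⟨s ^ e', pow_ne_zero _ hs, ?_⟩
  rw [he, he', Nat.mul_div_cancel_left _ two_pos, Nat.mul_div_cancel_left _ two_pos, hs', mul_pow,
    ← pow_mul, ← pow_mul, hdeg, Rat.cast_pow]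

end

end Pool.Agent.K9h41.RC
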