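import Mathlib
import Pool.Agent.K9h41.RC.Df
import Pool.Agent.H977R3.CM.Aut

/-!
# Signs on the embeddings (leaf HOD)
-/

set_option autoImplicit false

namespace Pool.Agent.K9h41.RC

open NumberField

/-- complex conjugation as an automorphism -/
noncomputable def cc : RingAut ℂ := (starRingAut : RingAut ℂ)

/-- every embedding of a subfield of a Galois number field factors through the Galois group -/
theorem exists_factor {F L : Type} [Field F] [NumberField F] [Field L] [NumberField L]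
    [Algebra F L] [IsGalois ℚ L] (j : L →+* ℂ) (φ : F →+* ℂ) :
    ∃ g : L ≃ₐ[ℚ] L, ∀ x : F, φ x = j (g (algebraMap F L x)) := by
  obtain ⟨φ', hφ'⟩ : ∃ φ' : L →+* ℂ, ∀ x : F, φ' (algebraMap F L x) = φ x := by
    let _ : Algebra F ℂ := φ.toAlgebra
    have : Algebra.IsAlgebraic F L := by
      have : FiniteDimensional F L := Module.Finite.of_restrictScalars_finite ℚ F L
      infer_instance
    let ψ : L →ₐ[F] ℂ := IsAlgClosed.lift
    exact ⟨ψ, fun x => ψ.commutes x⟩
  let _ : Algebra L ℂ := j.toAlgebra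
  have _ : IsScalarTower ℚ L ℂ := IsScalarTower.of_algebraMap_eq fun x => by
    rw [eq_ratCast, eq_ratCast]
    exact (map_ratCast j x).symm
  let χ : L →ₐ[ℚ] ℂ := φ'.toRatAlgHom
  refine ⟨AlgEquiv.ofBijective (χ.restrictNormal L) (AlgHom.normal_bijective ℚ L L _), fun x => ?_⟩
  rw [← hφ']
  exact (χ.restrictNormal_commutes L (algebraMap F L x)).symm

theorem cm_core {F L : Type} [Field F] [NumberField F] [Field L] [NumberField L]
    [Algebra F L] [IsGalois ℚ L] (j : L →+* ℂ) (f : (F →+* ℂ) → ℤ) (h0 : ∀ τ, f τ ≠ 0)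
    (hf : ∀ (σ : RingAut ℂ) (τ : F →+* ℂ), f (((σ * cc * σ⁻¹ : RingAut ℂ) : ℂ →+* ℂ).comp τ) = -f τ) :
    ∃ α : F, Imag α := by
  classical
  -- complex conjugation on `L`
  obtain ⟨c, hc⟩ := Pool.Agent.H977R3.CM.exists_gal j (starRingAut : ℂ ≃+* ℂ)
  -- the function on the Galois group
  let u : (L ≃ₐ[ℚ] L) → ℤ := fun g => f (j.comp ((g : L →+* L).comp (algebraMap F L)))
  have hu0 : ∀ g, u g ≠ 0 := fun g => h0 _
  have huc : ∀ σ g : L ≃ₐ[ℚ] L, u (σ * c * σ⁻¹ * g) = -u g := by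
    intro σ g
    obtain ⟨s, hs⟩ := Pool.Agent.H977R3.CM.exists_aut j (σ : L ≃+* L)
    have hs' : ∀ x, s.symm (j x) = j (σ⁻¹ x) := by
      intro x
      rw [RingEquiv.symm_apply_eq, hs]
      congr 1
      exact (σ.apply_symm_apply x).symm
    have h1 := hf s (j.comp ((g : L →+* L).comp (algebraMap F L)))
    rw [← h1]
    show f _ = f _
    congr 1
    ext x
    show j (σ (c (σ⁻¹ (g (algebraMap F L x))))) = s (cc (s.symm (j (g (algebraMap F L x)))))
    rw [hs']
    have h2 : cc (j (σ⁻¹ (g (algebraMap F L x)))) = j (c (σ⁻¹ (g (algebraMap F L x)))) := hc _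
    rw [h2, hs]
    rfl
  have huh : ∀ (h : L ≃ₐ[F] L) (g : L ≃ₐ[ℚ] L), u (g * h.restrictScalars ℚ) = u g := by
    intro h g
    show f _ = f _
    congr 1
    ext x
    show j (g (h (algebraMap F L x))) = j (g (algebraMap F L x))
    rw [h.commutes]
  -- linear independence of the automorphisms
  obtain ⟨x, hx⟩ : ∃ x : L, ∑ g : L ≃ₐ[ℚ] L, ((u g⁻¹ : ℤ) : L) * g x ≠ 0 := by
    by_contra hcon
    push Not at hcon
    have hli := linearIndependent_monoidHom L L
    have hinj : Function.Injective (fun g : L ≃ₐ[ℚ] L => ((g : L →+* L) : L →* L)) := by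
      intro g g' h
      ext y
      exact DFunLike.congr_fun h y
    have hli' := hli.comp _ hinj
    rw [Fintype.linearIndependent_iff] at hli'
    have h1 := hli' (fun g => ((u g⁻¹ : ℤ) : L)) (by
      funext y
      have := hcon y
      rw [Finset.sum_apply]
      simpa using this) 1
    have h2 : u (1 : L ≃ₐ[ℚ] L)⁻¹ = 0 := by exact_mod_cast h1
    exact hu0 _ h2
  obtain ⟨α, hα⟩ : ∃ α : L, α = ∑ g : L ≃ₐ[ℚ] L, ((u g⁻¹ : ℤ) : L) * g x := ⟨_, rfl⟩
  rw [← hα] at hx
  have hact : ∀ ρ : L ≃ₐ[ℚ] L, ρ α = ∑ g : L ≃ₐ[ℚ] L, ((u (g⁻¹ * ρ) : ℤ) : L) * g x := by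
    intro ρ
    rw [hα, map_sum]
    symm
    rw [← Equiv.sum_comp (Equiv.mulLeft ρ)]
    refine Finset.sum_congr rfl fun g _ => ?_
    rw [map_mul, map_intCast]
    have e1 : (Equiv.mulLeft ρ g)⁻¹ * ρ = g⁻¹ := by
      show (ρ * g)⁻¹ * ρ = g⁻¹
      group
    rw [e1]
    rfl
  -- `α` is in `F`
  have hαF : ∃ β : F, algebraMap F L β = α := by
    have _ : IsGalois F L := IsGalois.tower_top_of_isGalois ℚ F L
    have _ : FiniteDimensional F L := Module.Finite.of_restrictScalars_finite ℚ F L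
    have h := (IsGalois.mem_range_algebraMap_iff_fixed (F := F) (E := L) α).2 (by
      intro h
      have h1 := hact (h.restrictScalars ℚ)
      have h2 : h α = (h.restrictScalars ℚ) α := rfl
      rw [h2, h1, hα]
      exact Finset.sum_congr rfl fun g _ => by rw [huh])
    exact h
  -- `α` is antiinvariant
  have hanti : ∀ σ : L ≃ₐ[ℚ] L, (σ * c * σ⁻¹) α = -α := by
    intro σ
    rw [hact, hα, ← Finset.sum_neg_distrib]
    refine Finset.sum_congr rfl fun g _ => ?_
    have e : g⁻¹ * (σ * c * σ⁻¹) = (g⁻¹ * σ) * c * (g⁻¹ * σ)⁻¹ * g⁻¹ := by group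
    rw [e, huc]
    push_cast
    ring
  obtain ⟨β, hβ⟩ := hαF
  refine ⟨β, ?_, ?_⟩
  · rintro rfl
    rw [map_zero] at hβ
    exact hx hβ.symm
  · intro φ
    obtain ⟨g, hg⟩ := exists_factor j φ
    rw [hg, hβ]
    have h1 : star (j (g α)) = j (c (g α)) := hc _
    rw [h1, ← map_neg]
    congr 1
    have h2 := hanti g⁻¹
    have h3 : c (g α) = g ((g⁻¹ * c * g⁻¹⁻¹) α) := by
      show c (g α) = (g * (g⁻¹ * c * g⁻¹⁻¹)) α
      have : g * (g⁻¹ * c * g⁻¹⁻¹) = c * g := by group
      rw [this]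
      rfl
    rw [h3, h2, map_neg]

/-- A nowhere vanishing function on the embeddings which changes its sign under all conjugates of
complex conjugation only exists in the CM-case. Proof: let `L` be a Galois number field with `F ⊆ L ⊆ ℂ`,
and let `u` be the function on `G = Gal(L/ℚ)` given by `f`. For some `x` in `L` the element
`α = ∑ g, u(g⁻¹) g(x)` is not zero (linear independence of the automorphisms). As `u(g h) = u(g)` for
`h` in `Gal(L/F)`, `α` is in `F`, and as `u(g⁻¹ c') = u((g⁻¹ c' g) g⁻¹) = -u(g⁻¹)` for all conjugates `c'` of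
complex conjugation, `c' α = -α`. -/
theorem cm_of_sign {F : Type} [Field F] [NumberField F] (f : (F →+* ℂ) → ℤ) (h0 : ∀ τ, f τ ≠ 0)
    (hf : ∀ (σ : RingAut ℂ) (τ : F →+* ℂ), f (((σ * cc * σ⁻¹ : RingAut ℂ) : ℂ →+* ℂ).comp τ) = -f τ) :
    ∃ α : F, Imag α := by
  let L := IntermediateField.normalClosure ℚ F (AlgebraicClosure F)
  have _ : FiniteDimensional ℚ L := inferInstance
  have _ : NumberField L := { to_charZero := inferInstance, to_finiteDimensional := inferInstance }
  have _ : Normal ℚ (AlgebraicClosure F) := by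
    have : Algebra.IsAlgebraic ℚ (AlgebraicClosure F) := Algebra.IsAlgebraic.trans ℚ F _
    have : IsAlgClosure ℚ (AlgebraicClosure F) := ⟨inferInstance, inferInstance⟩
    exact IsAlgClosure.normal ℚ (AlgebraicClosure F)
  have _ : Normal ℚ L := normalClosure.normal ℚ F (AlgebraicClosure F)
  have _ : IsGalois ℚ L := ⟨⟩
  let j : L →ₐ[ℚ] ℂ := IsAlgClosed.lift
  exact cm_core (L := L) (j : L →+* ℂ) f h0 hf

end Pool.Agent.K9h41.RC
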